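import Pool.Agent.H47Z.CubeSwitch

set_option autoImplicit false

namespace Pool.Agent.Results.MP_615643_co.TwoChanges

open Pool.Agent.H47Z.CubeSwitch

/-- For every 2-colouring of the edges of the `n`-cube and every colour `a`:
(1) some vertex is joined to its antipode by a path coloured `a`, then the other colour, then `a`
(each block may be empty), so with at most two colour changes;
(2) if antipodal edges always have the same colour, some vertex is joined to its antipode by a path
coloured `a`, then the other colour, so with at most one colour change. -/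
theorem result (n : ℕ) (c : (Fin n → Bool) → (Fin n → Bool) → Bool)
    (hc : ∀ u v, c u v = c v u) (a : Bool) :
    (∃ (x : Fin n → Bool) (k : ℕ) (p : Fin (k + 1) → (Fin n → Bool)),
      Function.Injective p ∧
      p 0 = x ∧
      p (Fin.last k) = (fun i : Fin n => !(x i)) ∧
      (∀ i : Fin k, ∃ d : Fin n, ∀ e : Fin n,
        (p (Fin.castSucc i) e ≠ p (Fin.succ i) e ↔ e = d)) ∧
      ∃ j₁ j₂ : ℕ, ∀ i : Fin k,
        c (p (Fin.castSucc i)) (p (Fin.succ i)) =
          (if j₁ ≤ i.val ∧ i.val < j₂ then !a else a)) ∧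
    ((∀ u v, c (fun i => !(u i)) (fun i => !(v i)) = c u v) →
      ∃ (x : Fin n → Bool) (k : ℕ) (p : Fin (k + 1) → (Fin n → Bool)),
        Function.Injective p ∧
        p 0 = x ∧
        p (Fin.last k) = (fun i : Fin n => !(x i)) ∧
        (∀ i : Fin k, ∃ d : Fin n, ∀ e : Fin n,
          (p (Fin.castSucc i) e ≠ p (Fin.succ i) e ↔ e = d)) ∧
        ∃ j : ℕ, ∀ i : Fin k,
          c (p (Fin.castSucc i)) (p (Fin.succ i)) = (if i.val < j then a else !a)) := by
  refine ⟨?_, fun hs => ?_⟩
  · obtain ⟨w, x, y, h1, h2, h3⟩ := three hc a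
    obtain ⟨k, p, φ, hi, h0, hk, hm, hadj, hcol⟩ :=
      path (c := c) (col := fun i => if i = 1 then !a else a)
        (Ph.ext (Ph.ext (Ph.ext (Ph.zero _ w) le_rfl h1) zero_le_one h2) one_le_two h3)
    obtain ⟨j₁, hj₁⟩ := thr hm k 1
    obtain ⟨j₂, hj₂⟩ := thr hm k 2
    refine ⟨w, k, p, hi, h0, hk, hadj, j₁, j₂, fun i => ?_⟩
    have e1 := hj₁ i i.2
    have e2 := hj₂ i i.2
    rw [(hcol i).2]
    exact if_congr (by omega) rfl rfl
  · obtain ⟨w, x, h1, h2⟩ := two hc hs a
    obtain ⟨k, p, φ, hi, h0, hk, hm, hadj, hcol⟩ :=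
      path (c := c) (col := fun i => if i = 0 then a else !a)
        (Ph.ext (Ph.ext (Ph.zero _ w) le_rfl h1) zero_le_one h2)
    obtain ⟨j, hj⟩ := thr hm k 1
    refine ⟨w, k, p, hi, h0, hk, hadj, j, fun i => ?_⟩
    have e1 := hj i i.2
    rw [(hcol i).2]
    exact if_congr (by omega) rfl rfl

end Pool.Agent.Results.MP_615643_co.TwoChanges
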